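import Pool.Agent.H44.DU.Targets2
import Pool.Agent.H44.DV.Targets

/-!
# Every leaf accumulates at a state
-/

set_option autoImplicit false

namespace Pool.Agent.H44.DU

open Filter Topology

namespace ACaux

/-- The words of length `N` along the sequence. -/
def wk {n : ℕ} (N : ℕ) (y : ℕ → Side n × ℝ) (k : ℕ) : List (Side n) :=
  (List.range N).map fun j => (y (k + j)).1

lemma wk_length {n : ℕ} (N : ℕ) (y : ℕ → Side n × ℝ) (k : ℕ) : (wk N y k).length = N := by
  simp [wk]

lemma wk_take {n : ℕ} (N : ℕ) (y : ℕ → Side n × ℝ) (k j : ℕ) (hj : j ≤ N) :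
    (wk N y k).take j = (List.range j).map fun i => (y (k + i)).1 := by
  unfold wk
  rw [← List.map_take, List.take_range, min_eq_left hj]

lemma wk_get {n : ℕ} (N : ℕ) (y : ℕ → Side n × ℝ) (k j : ℕ) (hj : j < (wk N y k).length) :
    (wk N y k)[j] = (y (k + j)).1 := by
  simp [wk]

end ACaux

open ACaux

theorem pf_AC (h1 : T_KD) (h2 : T_LH) : D_AC := by
  intro n S t c₀ hgd hc hgain y hy
  set N := 3 * n + 1 with hN
  -- a word which occurs infinitely often
  obtain ⟨f, hf⟩ := Finite.exists_infinite_fiber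
    (fun (k : ℕ) (j : Fin N) => (y (k + j)).1)
  set K : Set ℕ := (fun (k : ℕ) (j : Fin N) => (y (k + j)).1) ⁻¹' {f} with hK
  have hKinf : K.Infinite := Set.infinite_coe_iff.mp hf
  obtain ⟨k0, hk0⟩ := hKinf.nonempty
  set w := wk N y k0 with hw
  have hwlen : w.length = N := wk_length N y k0
  have hwne : w ≠ [] := by
    intro h
    rw [h] at hwlen
    simp at hwlen
  have hwK : ∀ k ∈ K, wk N y k = w := by
    intro k hk
    rw [hw]
    unfold wk
    apply List.map_congr_left
    intro j hj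
    have hj' : j < N := List.mem_range.mp hj
    have e1 : (fun j : Fin N => (y (k + j)).1) = f := hk
    have e2 : (fun j : Fin N => (y (k0 + j)).1) = f := hk0
    have e3 := congrFun (e1.trans e2.symm) ⟨j, hj'⟩
    exact e3
  have hrun : ∀ k ∈ K, S.Run t w (y k).2 := by
    intro k hk
    rw [← hwK k hk]
    exact (S.chain_run hy k N).1
  have hIcc : ∀ k ∈ K, (y k).2 ∈ Set.Icc (S.lo t w) (S.hi t w) := by
    intro k hk
    obtain ⟨-, h3, h4⟩ := (h2 n S t w hwne (y k).2).1 (hrun k hk)
    exact ⟨h3.le, h4.le⟩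
  -- the subsequence
  set u : ℕ → ℕ := Nat.nth (· ∈ K) with hu
  have huK : ∀ i, u i ∈ K := fun i => Nat.nth_mem_of_infinite hKinf i
  have hum : StrictMono u := Nat.nth_strictMono hKinf
  obtain ⟨x, hx, φ, hφ, hlim⟩ := (isCompact_Icc (a := S.lo t w) (b := S.hi t w)).tendsto_subseq
    (x := fun i => (y (u i)).2) (fun i => hIcc _ (huK i))
  -- a good index
  have hj : ∃ (j : ℕ) (hj : j < w.length), S.InJ t w[j] (S.g t (w.take j) x) := by
    by_contra hcon
    push Not at hcon
    have h0 : 0 < w.length := by omega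
    have h3 : 3 * n < w.length := by omega
    have := h1 n S t c₀ hgd hc hgain w x ⟨(y k0).2, hrun k0 hk0⟩ hx.1 hx.2 0 (3 * n) h0 h3
      (hcon 0 h0) (hcon (3 * n) h3)
    omega
  obtain ⟨j, hjl, hJ⟩ := hj
  refine ⟨w[j], S.g t (w.take j) x, hJ, ?_⟩
  intro ε hε M
  have hcont : Continuous fun z => S.g t (w.take j) z := by
    unfold Surf.g
    fun_prop
  have hlim2 : Tendsto (fun i => S.g t (w.take j) ((y (u (φ i))).2)) atTop
      (𝓝 (S.g t (w.take j) x)) := (hcont.tendsto x).comp hlim
  obtain ⟨I, hI⟩ := Metric.tendsto_atTop.1 hlim2 ε hε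
  have hge : ∀ i, i ≤ u (φ i) := fun i => (hum.comp hφ).id_le i
  set i := max I M with hi
  have hK' := huK (φ i)
  refine ⟨u (φ i) + j, ?_, ?_, ?_⟩
  · have := hge i
    have h5 : M ≤ i := le_max_right _ _
    omega
  · have h6 : wk N y (u (φ i)) = w := hwK _ hK'
    have h7 : j < (wk N y (u (φ i))).length := by rw [h6]; exact hjl
    have h8 := wk_get N y (u (φ i)) j h7
    rw [← h8]
    simp only [h6]
  · have h9 := (S.chain_run hy (u (φ i)) j).2.1
    have h10 : w.take j = (List.range j).map fun l => (y (u (φ i) + l)).1 := by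
      rw [← hwK _ hK']
      exact wk_take N y _ j (by omega)
    have h11 := hI i (le_max_left _ _)
    rw [Real.dist_eq] at h11
    rw [← h9, ← h10]
    exact h11

end Pool.Agent.H44.DU
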